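import Pool.Agent.Helper30.LK.St

/-!
# Project LK, module AAN: almost all `n` have no small `k`
-/

set_option autoImplicit false

noncomputable section

namespace Pool.Agent.Helper70.LK

open Finset ArithmeticFunction Filter
open Pool.Agent.Helper18.TR (StFL)
open Pool.Agent.Helper15.AB (StMT)
open Pool.Agent.Helper48.BK (StSW th)
open Pool.Agent.Helper30.PB (StPRP StPIP)
open Pool.Agent.Helper30.LK
open Pool.Agent.Helper93.KN (ff)

/-- The exceptional `m ≤ M` for `q`. -/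
private def Exc (q M : ℕ) : Finset ℕ :=
  (Icc 1 M).filter (fun m => ¬ (q ∣ sigma 1 (m ^ 2) ∧ q ∣ sigma 1 (2 * m ^ 2)))

/-- The `n ≤ N` with `2 n + h` prime. -/
private def Bp (N h : ℕ) : Finset ℕ := (Icc 1 N).filter (fun n : ℕ => (2 * 1 * n + h).Prime)

private theorem sig_pos {k : ℕ} (hk : 0 < k) : 0 < sigma 1 k := by
  rw [sigma_one_apply]
  have h1 : 1 ∈ k.divisors := Nat.one_mem_divisors.2 hk.ne'
  exact lt_of_lt_of_le one_pos (Finset.single_le_sum (f := fun d => d) (fun d _ => Nat.zero_le d) h1)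

private theorem m_le {C : ℝ} {m k n N : ℕ} (hn : 1 ≤ n) (hnN : n ≤ N) (hmk : m ^ 2 ≤ k)
    (hk : (k : ℝ) ≤ C * Real.log n ^ 2) (hC : 0 < C) : m ≤ ⌊√C * Real.log N⌋₊ := by
  have hn1 : (1 : ℝ) ≤ n := by exact_mod_cast hn
  have hl0 : 0 ≤ Real.log n := Real.log_nonneg hn1
  have hl1 : Real.log n ≤ Real.log N :=
    Real.log_le_log (by linarith) (by exact_mod_cast hnN)
  refine Nat.le_floor ?_
  have h1 : (m : ℝ) ^ 2 ≤ (√C * Real.log N) ^ 2 := by
    rw [mul_pow, Real.sq_sqrt hC.le]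
    calc (m : ℝ) ^ 2 ≤ (k : ℝ) := by exact_mod_cast hmk
      _ ≤ C * Real.log n ^ 2 := hk
      _ ≤ C * Real.log N ^ 2 := by
        refine mul_le_mul_of_nonneg_left ?_ hC.le
        exact pow_le_pow_left₀ hl0 hl1 2
  exact le_of_sq_le_sq h1 (mul_nonneg (Real.sqrt_nonneg _) (hl0.trans hl1))

private theorem cover {P : Finset ℕ} (hP : ∀ p ∈ P, p.Prime) (hO : StODD) {C : ℝ} (hC : 0 < C)
    {N n : ℕ} (hn : n ∈ Icc 1 N) {k : ℕ} (hk0 : 0 < k) (hk : (k : ℝ) ≤ C * Real.log n ^ 2)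
    (hpr : (2 * n + sigma 1 k).Prime) :
    (∀ p ∈ P, ¬ p ∣ n) ∨ n ∈ Icc 1 (P.sup id) ∨
      ∃ q ∈ P, ∃ m ∈ Exc q ⌊√C * Real.log N⌋₊,
        n ∈ Bp N (sigma 1 (m ^ 2)) ∪ Bp N (sigma 1 (2 * m ^ 2)) := by
  rw [mem_Icc] at hn
  have hs : 0 < sigma 1 k := sig_pos hk0
  have hodd : Odd (sigma 1 k) := by
    have h1 : Odd (2 * n + sigma 1 k) := by
      refine hpr.odd_of_ne_two ?_
      omega
    rcases Nat.even_or_odd (sigma 1 k) with h2 | h2
    · exfalso
      rw [← Nat.not_even_iff_odd] at h1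
      exact h1 (Even.add (even_two_mul n) h2)
    · exact h2
  obtain ⟨m, hm1, hm⟩ := hO k hk0 hodd
  have hmk : m ^ 2 ≤ k := by
    rcases hm with h | h
    · exact h.ge
    · rw [h]
      omega
  have hmM := m_le hn.1 hn.2 hmk hk hC
  by_cases hq : ∀ q ∈ P, q ∣ sigma 1 (m ^ 2) ∧ q ∣ sigma 1 (2 * m ^ 2)
  · by_cases hd : ∀ p ∈ P, ¬ p ∣ n
    · exact Or.inl hd
    · right
      left
      push Not at hd
      obtain ⟨q, hqP, hqn⟩ := hd
      have hqk : q ∣ sigma 1 k := by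
        rcases hm with h | h
        · rw [h]; exact (hq q hqP).1
        · rw [h]; exact (hq q hqP).2
      have h2 : q ∣ 2 * n + sigma 1 k := dvd_add (Dvd.dvd.mul_left hqn 2) hqk
      have h3 : q = 2 * n + sigma 1 k := (Nat.prime_dvd_prime_iff_eq (hP q hqP) hpr).1 h2
      have h4 : q ≤ P.sup id := Finset.le_sup (f := id) hqP
      rw [mem_Icc]
      omega
  · right
    right
    push Not at hq
    obtain ⟨q, hqP, hqm⟩ := hq
    refine ⟨q, hqP, m, ?_, ?_⟩
    · rw [Exc, mem_filter, mem_Icc]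
      exact ⟨⟨hm1, hmM⟩, fun h => hqm h.1 h.2⟩
    · rw [mem_union, Bp, Bp, mem_filter, mem_filter]
      rcases hm with h | h
      · left
        refine ⟨mem_Icc.2 hn, ?_⟩
        rw [mul_one, ← h]
        exact hpr
      · right
        refine ⟨mem_Icc.2 hn, ?_⟩
        rw [mul_one, ← h]
        exact hpr

/-- Module AAN. -/
theorem hAAN (hO : StODD) (hE : StEXA) (hD : StDIV) (hP : StPRP) : StAAN := by
  classical
  intro C ε hC hε
  obtain ⟨P, hP1, N1, hP2⟩ := hD 3 1 1 (by norm_num) (by norm_num) (ε / 3) (by linarith)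
  obtain ⟨C', hC', hprp⟩ := hP
  set D : ℝ := |C' * ff (2 * 1)| + 1 with hDdef
  have hD0 : 0 < D := by
    have := abs_nonneg (C' * ff (2 * 1))
    linarith
  have hsC : 0 < √C := Real.sqrt_pos.2 hC
  set ε' : ℝ := (ε / 3) / (2 * (P.card + 1) * √C * D) with hε'def
  have hden : (0 : ℝ) < 2 * (P.card + 1) * √C * D := by positivity
  have hε' : 0 < ε' := div_pos (by linarith) hden
  have hq : ∀ q ∈ P, ∃ M₀ : ℕ, ∀ M : ℕ, M₀ ≤ M → ((Exc q M).card : ℝ) ≤ ε' * M := by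
    intro q hqP
    obtain ⟨h1, h2, -⟩ := hP1 q hqP
    exact hE q h1 (by omega) ε' hε'
  choose! M0 hM0 using hq
  set M1 : ℕ := P.sup M0 with hM1
  have ev : ∀ᶠ N : ℕ in atTop, (M1 : ℝ) ≤ √C * Real.log N := by
    have h1 : Tendsto (fun N : ℕ => √C * Real.log (N : ℝ)) atTop atTop :=
      (Real.tendsto_log_atTop.comp tendsto_natCast_atTop_atTop).const_mul_atTop hsC
    exact h1.eventually_ge_atTop _
  have ev2 : ∀ᶠ N : ℕ in atTop, ((P.sup id : ℕ) : ℝ) ≤ (ε / 3) * N := by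
    have h1 : Tendsto (fun N : ℕ => (ε / 3) * (N : ℝ)) atTop atTop :=
      tendsto_natCast_atTop_atTop.const_mul_atTop (by linarith)
    exact h1.eventually_ge_atTop _
  obtain ⟨N2, hN2⟩ := eventually_atTop.1 (ev.and ev2)
  refine ⟨max (max N1 N2) 3, fun N hN => ?_⟩
  have hNN1 : N1 ≤ N := le_trans (le_trans (le_max_left _ _) (le_max_left _ _)) hN
  have hNN2 : N2 ≤ N := le_trans (le_trans (le_max_right _ _) (le_max_left _ _)) hN
  have hN3 : 3 ≤ N := le_trans (le_max_right _ _) hN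
  obtain ⟨hM, hsup⟩ := hN2 N hNN2
  have hlog : 0 < Real.log N := Real.log_pos (by
    have : (3 : ℝ) ≤ N := by exact_mod_cast hN3
    linarith)
  set M : ℕ := ⌊√C * Real.log N⌋₊ with hMdef
  have hM1M : M1 ≤ M := Nat.le_floor hM
  have hMle : (M : ℝ) ≤ √C * Real.log N := Nat.floor_le (mul_nonneg hsC.le hlog.le)
  have hA0 := hP2 N hNN1
  have hN0 : (0 : ℝ) ≤ N := Nat.cast_nonneg N
  have hB : ∀ h : ℕ, ((Bp N h).card : ℝ) ≤ D * (N / Real.log N) := by
    intro h
    have h1 := (hprp 1 h h N le_rfl (by omega)).1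
    have h2 : C' * (N / Real.log N) * ff (2 * 1) = (C' * ff (2 * 1)) * (N / Real.log N) := by ring
    rw [h2] at h1
    refine h1.trans (mul_le_mul_of_nonneg_right ?_ (div_nonneg hN0 hlog.le))
    have := le_abs_self (C' * ff (2 * 1))
    rw [hDdef]
    linarith
  -- the covering
  set A0 : Finset ℕ := (Icc 1 N).filter (fun n => ∀ p ∈ P, ¬ p ∣ n) with hA0def
  set U : Finset ℕ := P.biUnion (fun q => (Exc q M).biUnion
    (fun m => Bp N (sigma 1 (m ^ 2)) ∪ Bp N (sigma 1 (2 * m ^ 2)))) with hU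
  have hA0' : (A0.card : ℝ) ≤ ε / 3 * N := by
    refine le_trans (le_of_eq ?_) hA0
    congr 2
  have hsub : (Icc 1 N).filter (fun n : ℕ => ∃ k : ℕ, 0 < k ∧ (k : ℝ) ≤ C * Real.log n ^ 2 ∧
      (2 * n + sigma 1 k).Prime) ⊆ A0 ∪ (Icc 1 (P.sup id) ∪ U) := by
    intro n hn
    rw [mem_filter] at hn
    obtain ⟨hn1, k, hk0, hk, hpr⟩ := hn
    rcases cover (fun p hp => (hP1 p hp).1) hO hC hn1 hk0 hk hpr with h | h | ⟨q, hqP, m, hm, h⟩
    · exact mem_union_left _ (mem_filter.2 ⟨hn1, h⟩)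
    · exact mem_union_right _ (mem_union_left _ h)
    · refine mem_union_right _ (mem_union_right _ ?_)
      rw [hU, mem_biUnion]
      refine ⟨q, hqP, ?_⟩
      rw [mem_biUnion]
      exact ⟨m, hm, h⟩
  have hUc : (U.card : ℝ) ≤ ε / 3 * N := by
    have h1 : U.card ≤ ∑ q ∈ P, ∑ m ∈ Exc q M,
        ((Bp N (sigma 1 (m ^ 2))).card + (Bp N (sigma 1 (2 * m ^ 2))).card) := by
      refine card_biUnion_le.trans (sum_le_sum fun q _ => card_biUnion_le.trans
        (sum_le_sum fun m _ => card_union_le _ _))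
    have h2 : (U.card : ℝ) ≤ ∑ q ∈ P, ∑ m ∈ Exc q M,
        (((Bp N (sigma 1 (m ^ 2))).card : ℝ) + ((Bp N (sigma 1 (2 * m ^ 2))).card : ℝ)) := by
      exact_mod_cast h1
    have h3 : ∑ q ∈ P, ∑ m ∈ Exc q M,
        (((Bp N (sigma 1 (m ^ 2))).card : ℝ) + ((Bp N (sigma 1 (2 * m ^ 2))).card : ℝ)) ≤
        ∑ q ∈ P, (ε' * M) * (2 * (D * (N / Real.log N))) := by
      refine sum_le_sum fun q hqP => ?_
      have h4 : ∑ m ∈ Exc q M,
          (((Bp N (sigma 1 (m ^ 2))).card : ℝ) + ((Bp N (sigma 1 (2 * m ^ 2))).card : ℝ)) ≤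
          ∑ _m ∈ Exc q M, (2 * (D * (N / Real.log N))) := by
        refine sum_le_sum fun m _ => ?_
        have a1 := hB (sigma 1 (m ^ 2))
        have a2 := hB (sigma 1 (2 * m ^ 2))
        linarith
      refine h4.trans ?_
      rw [sum_const, nsmul_eq_mul]
      refine mul_le_mul_of_nonneg_right (hM0 q hqP M ?_) (by positivity)
      exact le_trans (Finset.le_sup (f := M0) hqP) hM1M
    refine h2.trans (h3.trans ?_)
    rw [sum_const, nsmul_eq_mul]
    have h5 : (P.card : ℝ) * ((ε' * M) * (2 * (D * (N / Real.log N)))) ≤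
        (P.card : ℝ) * ((ε' * (√C * Real.log N)) * (2 * (D * (N / Real.log N)))) := by
      refine mul_le_mul_of_nonneg_left ?_ (Nat.cast_nonneg _)
      refine mul_le_mul_of_nonneg_right ?_ (by positivity)
      exact mul_le_mul_of_nonneg_left hMle hε'.le
    refine h5.trans ?_
    have h6 : (P.card : ℝ) * ((ε' * (√C * Real.log N)) * (2 * (D * (N / Real.log N)))) =
        (2 * P.card * √C * D * ε') * N := by
      field_simp
    rw [h6]
    refine mul_le_mul_of_nonneg_right ?_ hN0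
    have h7 : (2 * (P.card + 1) * √C * D) * ε' = ε / 3 := by
      rw [hε'def]
      field_simp
    calc 2 * P.card * √C * D * ε' ≤ (2 * (P.card + 1) * √C * D) * ε' := by
          refine mul_le_mul_of_nonneg_right ?_ hε'.le
          refine mul_le_mul_of_nonneg_right ?_ hD0.le
          refine mul_le_mul_of_nonneg_right ?_ hsC.le
          linarith
      _ = ε / 3 := h7
  have hc := card_le_card hsub
  have hc2 : (A0 ∪ (Icc 1 (P.sup id) ∪ U)).card ≤ A0.card + (P.sup id + U.card) := by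
    refine (card_union_le _ _).trans (Nat.add_le_add_left ?_ _)
    refine (card_union_le _ _).trans (Nat.add_le_add_right ?_ _)
    simp
  have hc3 := hc.trans hc2
  have hc4 : (((Icc 1 N).filter (fun n : ℕ => ∃ k : ℕ, 0 < k ∧ (k : ℝ) ≤ C * Real.log n ^ 2 ∧
      (2 * n + sigma 1 k).Prime)).card : ℝ) ≤ (A0.card : ℝ) + ((P.sup id : ℕ) + (U.card : ℝ)) := by
    exact_mod_cast hc3
  calc _ ≤ (A0.card : ℝ) + ((P.sup id : ℕ) + (U.card : ℝ)) := hc4
    _ ≤ ε / 3 * N + (ε / 3 * N + ε / 3 * N) := by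
      have : ((P.sup id : ℕ) : ℝ) ≤ ε / 3 * N := hsup
      linarith
    _ = ε * N := by ring

end Pool.Agent.Helper70.LK
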